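import Pool.Agent.W670.ML.Defs

/-! Project ML, part EX: every subfield of degree `N` has a transitive group. -/

set_option autoImplicit false

namespace Pool.Agent.W571.ML

open Pool.Agent.W670.ML

theorem ex_aut (K Ω : Type) [Field K] [Field Ω] [Algebra K Ω] [IsAlgClosure K Ω]
    (M : IntermediateField K Ω) (φ : M →ₐ[K] Ω) : ∃ σ : Ω ≃ₐ[K] Ω, ∀ x : M, σ (x : Ω) = φ x := by
  have hn : Normal K Ω := IsAlgClosure.normal K Ω
  refine ⟨AlgEquiv.ofBijective (φ.liftNormal Ω) (AlgHom.normal_bijective K Ω Ω _), fun x => ?_⟩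
  exact φ.liftNormal_commutes Ω x

theorem ex_gen (K Ω : Type) [Field K] [CharZero K] [Field Ω] [Algebra K Ω] [IsAlgClosure K Ω]
    (N : ℕ) (M : IntermediateField K Ω) (hN : 0 < N) (hM : Module.finrank K M = N) :
    ∃ H : Subgroup (Equiv.Perm (Fin N)), Trans H ∧ HasGroup K Ω N H M := by
  classical
  have hcl : IsAlgClosed Ω := IsAlgClosure.isAlgClosed K
  have hfd : FiniteDimensional K M := FiniteDimensional.of_finrank_pos (by rw [hM]; exact hN)
  have hcard : Fintype.card (M →ₐ[K] Ω) = N := by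
    rw [AlgHom.card K M Ω, hM]
  let e : (M →ₐ[K] Ω) ≃ Fin N := Fintype.equivFinOfCardEq hcard
  let H : Subgroup (Equiv.Perm (Fin N)) :=
    { carrier := {τ | ∃ σ : Ω ≃ₐ[K] Ω, ∀ φ : M →ₐ[K] Ω, τ (e φ) = e (σ.toAlgHom.comp φ)}
      mul_mem' := by
        rintro τ τ' ⟨σ, hσ⟩ ⟨σ', hσ'⟩
        refine ⟨σ * σ', fun φ => ?_⟩
        rw [Equiv.Perm.mul_apply, hσ', hσ]
        rfl
      one_mem' := ⟨1, fun φ => rfl⟩
      inv_mem' := by
        rintro τ ⟨σ, hσ⟩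
        refine ⟨σ.symm, fun φ => ?_⟩
        rw [Equiv.Perm.inv_eq_iff_eq, hσ]
        congr 1
        ext x
        simp }
  refine ⟨H, ?_, hM, e, fun τ => Iff.rfl⟩
  intro i j
  obtain ⟨σ₁, h₁⟩ := ex_aut K Ω M (e.symm i)
  obtain ⟨σ₂, h₂⟩ := ex_aut K Ω M (e.symm j)
  set σ : Ω ≃ₐ[K] Ω := σ₁.symm.trans σ₂ with hσ
  have hσφ : σ.toAlgHom.comp (e.symm i) = e.symm j := by
    ext x
    have h3 : σ ((e.symm i) x) = (e.symm j) x := by
      rw [← h₁, ← h₂, hσ, AlgEquiv.trans_apply, AlgEquiv.symm_apply_apply]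
    exact h3
  let pre : (M →ₐ[K] Ω) ≃ (M →ₐ[K] Ω) :=
    { toFun := fun φ => σ.toAlgHom.comp φ
      invFun := fun φ => σ.symm.toAlgHom.comp φ
      left_inv := fun φ => by ext x; simp
      right_inv := fun φ => by ext x; simp }
  refine ⟨(e.symm.trans pre).trans e, ⟨σ, fun φ => ?_⟩, ?_⟩
  · show e (pre (e.symm (e φ))) = _
    rw [Equiv.symm_apply_apply]
    rfl
  · show e (σ.toAlgHom.comp (e.symm i)) = j
    rw [hσφ, Equiv.apply_symm_apply]

theorem ex : S_EX := by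
  intro Ω _ _ _ N M hN hM
  exact ex_gen ℚ Ω N M hN (by convert hM)

end Pool.Agent.W571.ML
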