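import Pool.Agent.W670.ML.Defs

/-! Project ML, part IA. -/

set_option autoImplicit false

namespace Pool.Agent.W571.ML

open Pool.Agent.W670.ML

theorem ia : S_IA := by
  classical
  intro N τ B hB
  have hsub : B ⊆ τ.support := by
    intro x hx
    rw [Equiv.Perm.mem_support]
    intro h
    have h1 := hB x hx
    rw [h] at h1
    exact h1 hx
  have h1 : Multiset.card τ.cycleType = τ.cycleFactorsFinset.card := by
    rw [Equiv.Perm.cycleType_def, Multiset.card_map]
    rfl
  have h2 : τ.cycleFactorsFinset ⊆ (τ.support \ B).image (fun x => τ.cycleOf x) := by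
    intro c hc
    have hcyc := (Equiv.Perm.mem_cycleFactorsFinset_iff.1 hc).1
    obtain ⟨x, hx⟩ := hcyc.nonempty_support
    have hxτ : x ∈ τ.support := Equiv.Perm.mem_cycleFactorsFinset_support_le hc hx
    have hce := Equiv.Perm.cycle_is_cycleOf hx hc
    by_cases hxB : x ∈ B
    · refine Finset.mem_image.2 ⟨τ x, Finset.mem_sdiff.2 ⟨?_, hB x hxB⟩, ?_⟩
      · rw [Equiv.Perm.apply_mem_support]
        exact hxτ
      · have hsc : Equiv.Perm.SameCycle τ x (τ x) := ⟨1, by simp⟩
        rw [hce]
        exact hsc.cycleOf_eq.symm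
    · exact Finset.mem_image.2 ⟨x, Finset.mem_sdiff.2 ⟨hxτ, hxB⟩, hce.symm⟩
  have h3 : τ.cycleFactorsFinset.card ≤ τ.support.card - B.card := by
    refine ((Finset.card_le_card h2).trans Finset.card_image_le).trans ?_
    rw [Finset.card_sdiff_of_subset hsub]
  have h4 := Finset.card_le_card hsub
  unfold ind
  rw [Equiv.Perm.sum_cycleType, h1]
  omega

end Pool.Agent.W571.ML
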